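import Pool.Agent.TH410.SmallOrder

/-!
Comparison of the restricted and the full alphabet, in both directions.
-/

namespace Pool.Agent.TH410

open Finset Module

variable {p : ℕ} [Fact p.Prime]

section forward

/-- For every alphabet with at least two letters the restricted bias is at most a fixed power of
the full bias. -/
theorem exists_exponent {S : Finset (ZMod p)} (hS : 2 ≤ S.card) (e : ℕ) :
    ∃ c : ℝ, 0 < c ∧ c ≤ 1 ∧ ∀ (n : ℕ) (m : Form p (e + 2) n) (t : ZMod p), t ≠ 0 →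
      ‖bias S t m‖ ≤ ‖bias univ 1 m‖ ^ c := by
  obtain ⟨κ, hκ0, hκ1, hκ⟩ := exists_kappa hS
  have hq : (1 : ℝ) < (Fintype.card (ZMod p) : ℝ) := card_real_one_lt
  have hlogq : 0 < Real.log (Fintype.card (ZMod p)) := Real.log_pos hq
  obtain ⟨s, hs⟩ : ∃ s : ℕ, κ ^ s < 1 / (2 * (Fintype.card (ZMod p) : ℝ)) :=
    exists_pow_lt_of_lt_one (by positivity) hκ1
  have hs1 : κ ^ (s + 1) ≤ 1 / (2 * (Fintype.card (ZMod p) : ℝ)) := by
    rw [pow_succ]
    calc κ ^ s * κ ≤ κ ^ s * 1 := mul_le_mul_of_nonneg_left hκ1.le (pow_nonneg hκ0 _)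
      _ ≤ _ := by rw [mul_one]; exact hs.le
  have hs2 : ((Fintype.card (ZMod p) : ℝ) - 1) * κ ^ (s + 1) ≤ 1 / 2 := by
    calc ((Fintype.card (ZMod p) : ℝ) - 1) * κ ^ (s + 1)
        ≤ (Fintype.card (ZMod p) : ℝ) * (1 / (2 * (Fintype.card (ZMod p) : ℝ))) := by
          apply mul_le_mul (by linarith) hs1 (pow_nonneg hκ0 _) (by linarith)
      _ = 1 / 2 := by
          have : (Fintype.card (ZMod p) : ℝ) ≠ 0 := by linarith
          field_simp
  set c : ℝ := Real.log (4 / 3) / (((s + 1 : ℕ) : ℝ) * Real.log (Fintype.card (ZMod p))) with hc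
  have hlog43 : 0 < Real.log (4 / 3) := Real.log_pos (by norm_num)
  have hcpos : 0 < c := by positivity
  have hc1 : c ≤ 1 := by
    rw [hc, div_le_one (by positivity)]
    have h2 : Real.log (4 / 3) ≤ Real.log (Fintype.card (ZMod p)) := by
      apply Real.log_le_log (by norm_num)
      have : (2 : ℝ) ≤ (Fintype.card (ZMod p) : ℝ) := by
        exact_mod_cast (Fintype.one_lt_card : 1 < Fintype.card (ZMod p))
      linarith
    have h3 : (1 : ℝ) ≤ ((s + 1 : ℕ) : ℝ) := by push_cast; linarith [Nat.cast_nonneg (α := ℝ) s]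
    nlinarith
  refine ⟨c ^ (e + 1), pow_pos hcpos _, pow_le_one₀ hcpos.le hc1, ?_⟩
  intro n m t ht
  have hw1 := uw_sum (S := S) (by omega)
  refine (norm_bias_le hS hκ ht m).trans ?_
  rw [norm_bias_univ one_ne_zero]
  refine hybrid_upper (K := ZMod p) (fun x => wpr_nonneg (uw_nonneg S) x) (wpr_sum hw1)
    unif_nonneg unif_sum (φ := wpr (dmp κ)) ?_ hcpos.le hc1 ?_ e (coeff m)
  · intro y
    unfold zind
    split_ifs with hy
    · rw [hy]
      unfold wpr dmp
      simp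
    · exact wpr_nonneg (dmp_nonneg hκ0) _
  · intro L
    exact upper_one L (uw_nonneg S) hw1 (uw_le hS) hκ0 hκ1.le (Nat.succ_ne_zero s) hs2

theorem bias_univ_pos {e n : ℕ} (m : Form p (e + 2) n) : 0 < ‖bias univ 1 m‖ := by
  rw [norm_bias_univ one_ne_zero]
  unfold pavg
  have h0 : (∏ j : Fin (e + 1), unif p n ((0 : Fin (e + 1) → (Fin n → ZMod p)) j)) *
      zind (coeff m 0) ≤ ∑ x : Fin (e + 1) → (Fin n → ZMod p), (∏ j, unif p n (x j)) *
        zind (coeff m x) :=
    Finset.single_le_sum (f := fun x : Fin (e + 1) → (Fin n → ZMod p) =>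
      (∏ j, unif p n (x j)) * zind (coeff m x))
      (fun x _ => mul_nonneg (Finset.prod_nonneg fun _ _ => unif_nonneg _) (zind_nonneg _))
      (Finset.mem_univ _)
  refine lt_of_lt_of_le ?_ h0
  have h1 : coeff m 0 = 0 := (coeff m).map_zero
  rw [h1]
  have h2 : zind (0 : Fin n → ZMod p) = 1 := by unfold zind; simp
  rw [h2, mul_one]
  apply Finset.prod_pos
  intro j _
  rw [unif_eq]
  have : (0 : ℝ) < (Fintype.card (Fin n → ZMod p) : ℝ) := by
    have : 0 < Fintype.card (Fin n → ZMod p) := Fintype.card_pos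
    exact_mod_cast this
  positivity

theorem bias_univ_le_one {e n : ℕ} (m : Form p (e + 2) n) : ‖bias univ 1 m‖ ≤ 1 := by
  rw [norm_bias_univ one_ne_zero]
  exact pavg_le_one unif_nonneg unif_sum _ fun _ => zind_le_one _

/-- The full-alphabet case implies the case of every alphabet with two letters. -/
theorem LinearBound.of_univ {d : ℕ} (hd : 2 ≤ d) {S : Finset (ZMod p)} (hS : 2 ≤ S.card)
    (h : LinearBound p d univ) : LinearBound p d S := by
  obtain ⟨e, rfl⟩ : ∃ e, d = e + 2 := ⟨d - 2, by omega⟩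
  obtain ⟨c, hc0, hc1, hc⟩ := exists_exponent hS e
  obtain ⟨C, hC0, hC⟩ := h
  refine ⟨C / c, by positivity, ?_⟩
  intro n ε m hε hε1 ⟨t, ht, hbias⟩
  have hB0 := bias_univ_pos m
  have hB1 := bias_univ_le_one m
  obtain ⟨r, hr, hrC⟩ := hC n ‖bias univ 1 m‖ m hB0 hB1 ⟨1, one_ne_zero, le_rfl⟩
  refine ⟨r, hr, hrC.trans ?_⟩
  have h1 : ε ≤ ‖bias univ 1 m‖ ^ c := hbias.trans (hc n m t ht)
  have h2 := Real.log_le_log hε h1
  rw [Real.log_rpow hB0] at h2
  rw [one_div, one_div, Real.log_inv, Real.log_inv, div_mul_eq_mul_div, le_div_iff₀ hc0]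
  nlinarith

end forward

end Pool.Agent.TH410
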