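import Pool.Agent.TH410.Compare

/-!
A linear bound for one alphabet implies the linear bound for the full alphabet.
-/

namespace Pool.Agent.TH410

open Finset Module

section pushforward

variable {A B ι R : Type*} [Fintype A] [Fintype B] [Fintype ι] [DecidableEq ι] [DecidableEq B]
  [CommSemiring R]

/-- Product weights push forward to product weights. -/
theorem sum_pushforward (g : A → B) (μ' : A → R) (F : (ι → B) → R) :
    ∑ y : ι → A, (∏ i, μ' (y i)) * F (fun i => g (y i)) =
      ∑ x : ι → B, (∏ i, ∑ a : A, if g a = x i then μ' a else 0) * F x := by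
  have h1 : ∀ x : ι → B, (∏ i, ∑ a : A, if g a = x i then μ' a else 0) =
      ∑ y : ι → A, ∏ i, (if g (y i) = x i then μ' (y i) else 0) := by
    intro x
    have h2 := Finset.prod_univ_sum (fun _ : ι => (Finset.univ : Finset A))
      (fun i a => if g a = x i then μ' a else 0)
    rw [Fintype.piFinset_univ] at h2
    exact h2
  simp only [h1, Finset.sum_mul]
  rw [Finset.sum_comm]
  refine Finset.sum_congr rfl fun y _ => ?_
  rw [Finset.sum_eq_single (fun i => g (y i))]
  · congr 1
    exact Finset.prod_congr rfl fun i _ => by rw [if_pos rfl]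
  · intro x _ hx
    obtain ⟨i, hi⟩ := Function.ne_iff.mp hx
    rw [Finset.prod_eq_zero (Finset.mem_univ i) (by rw [if_neg (fun h => hi h.symm)]), zero_mul]
  · intro h
    exact absurd (Finset.mem_univ _) h

end pushforward

variable {p : ℕ} [Fact p.Prime]

section split

/-- Split forms stay split after a linear change of variables. -/
theorem IsSplit.comp {d n n' : ℕ} {T : Form p d n'} (hT : IsSplit T)
    (f : (Fin n → ZMod p) →ₗ[ZMod p] (Fin n' → ZMod p)) :
    IsSplit (T.compLinearMap (fun _ => f) : Form p d n) := by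
  obtain ⟨I, hI, hI', a, b, hab⟩ := hT
  refine ⟨I, hI, hI', a.compLinearMap (fun _ => f), b.compLinearMap (fun _ => f), ?_⟩
  intro x
  rw [MultilinearMap.compLinearMap_apply, hab]
  rfl

theorem PRLe.comp {d n n' : ℕ} {m : Form p d n'} {r : ℕ} (h : PRLe m r)
    (f : (Fin n → ZMod p) →ₗ[ZMod p] (Fin n' → ZMod p)) :
    PRLe (m.compLinearMap (fun _ => f) : Form p d n) r := by
  obtain ⟨T, hT, rfl⟩ := h
  refine ⟨fun k => (T k).compLinearMap (fun _ => f), fun k => (hT k).comp f, ?_⟩
  refine MultilinearMap.ext fun x => ?_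
  rw [MultilinearMap.compLinearMap_apply, _root_.sum_apply, _root_.sum_apply]
  rfl

end split

section block

/-- The linear form `∑_a a (y_a - y'_a)` on `2 p` variables. -/
noncomputable def dform (u : ZMod p × Bool → ZMod p) : ZMod p :=
  ∑ a : ZMod p, a * (u (a, true) - u (a, false))

/-- The law of `dform` when all variables have the law `w`. -/
noncomputable def dlaw (w : ZMod p → ℝ) (z : ZMod p) : ℝ :=
  ∑ u : ZMod p × Bool → ZMod p, if dform u = z then wpr w u else 0

theorem dlaw_sum {w : ZMod p → ℝ} (hw1 : ∑ c, w c = 1) : ∑ z, dlaw w z = 1 := by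
  unfold dlaw
  rw [Finset.sum_comm]
  simp only [Finset.sum_ite_eq, Finset.mem_univ, if_true]
  exact wpr_sum hw1

theorem dlaw_pos {S : Finset (ZMod p)} (hS : 2 ≤ S.card) (z : ZMod p) : 0 < dlaw (uw S) z := by
  classical
  obtain ⟨s1, hs1, s2, hs2, hne⟩ := Finset.one_lt_card.mp (show 1 < S.card by omega)
  have hδ : s1 - s2 ≠ 0 := sub_ne_zero.mpr hne
  set u0 : ZMod p × Bool → ZMod p := fun x =>
    if x.1 = z / (s1 - s2) ∧ x.2 = true then s1 else s2 with hu0
  have h1 : dform u0 = z := by
    unfold dform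
    rw [Finset.sum_eq_single (z / (s1 - s2))]
    · simp only [hu0, and_self, if_true]
      simp only [true_and, Bool.false_eq_true, if_false]
      field_simp
    · intro b _ hb
      simp [hu0, hb]
    · intro h
      exact absurd (Finset.mem_univ _) h
  unfold dlaw
  have h2 : 0 < wpr (uw S) u0 := by
    unfold wpr
    apply Finset.prod_pos
    intro x _
    have hx : u0 x ∈ S := by
      simp only [hu0]
      split_ifs
      exacts [hs1, hs2]
    unfold uw
    rw [if_pos hx]
    have : (0 : ℝ) < (S.card : ℝ) := by exact_mod_cast (by omega : 0 < S.card)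
    positivity
  refine lt_of_lt_of_le h2 ?_
  have h3 : (if dform u0 = z then wpr (uw S) u0 else 0) ≤
      ∑ u : ZMod p × Bool → ZMod p, if dform u = z then wpr (uw S) u else 0 := by
    apply Finset.single_le_sum (f := fun u => if dform u = z then wpr (uw S) u else 0)
      (fun u _ => ?_) (Finset.mem_univ u0)
    split_ifs
    · exact wpr_nonneg (uw_nonneg S) _
    · exact le_rfl
  rw [if_pos h1] at h3
  exact h3

/-- The characteristic function of `dlaw` is a product of squared absolute values. -/
theorem dlaw_char (w : ZMod p → ℝ) (t : ZMod p) :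
    ∑ z : ZMod p, ((dlaw w z : ℝ) : ℂ) * ZMod.stdAddChar (t * z) =
      ((∏ a : ZMod p, Complex.normSq (∑ c : ZMod p, ((w c : ℝ) : ℂ) *
        ZMod.stdAddChar (t * (c * a))) : ℝ) : ℂ) := by
  classical
  have h1 : ∑ z : ZMod p, ((dlaw w z : ℝ) : ℂ) * ZMod.stdAddChar (t * z) =
      ∑ u : ZMod p × Bool → ZMod p, ((wpr w u : ℝ) : ℂ) * ZMod.stdAddChar (t * dform u) := by
    unfold dlaw
    push_cast
    simp only [Finset.sum_mul]
    rw [Finset.sum_comm]
    refine Finset.sum_congr rfl fun u _ => ?_
    rw [Finset.sum_eq_single (dform u)]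
    · rw [if_pos rfl]
    · intro z _ hz
      rw [if_neg (fun h => hz h.symm)]
      simp
    · intro h
      exact absurd (Finset.mem_univ _) h
  rw [h1]
  have h2 : ∀ u : ZMod p × Bool → ZMod p, ((wpr w u : ℝ) : ℂ) * ZMod.stdAddChar (t * dform u) =
      ∏ x : ZMod p × Bool, (((w (u x) : ℝ) : ℂ) *
        ZMod.stdAddChar (t * (u x * (if x.2 = true then x.1 else -x.1)))) := by
    intro u
    rw [Finset.prod_mul_distrib, ← char_sum]
    congr 1
    · unfold wpr
      push_cast
      rfl
    · congr 1
      rw [Fintype.sum_prod_type]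
      unfold dform
      rw [Finset.mul_sum]
      refine Finset.sum_congr rfl fun a _ => ?_
      rw [Fintype.sum_bool]
      simp
      ring
  simp only [h2]
  have h3 := Finset.prod_univ_sum (fun _ : ZMod p × Bool => (Finset.univ : Finset (ZMod p)))
    (fun x c => ((w c : ℝ) : ℂ) * ZMod.stdAddChar (t * (c * (if x.2 = true then x.1 else -x.1))))
  rw [Fintype.piFinset_univ] at h3
  rw [← h3, Fintype.prod_prod_type]
  push_cast
  refine Finset.prod_congr rfl fun a _ => ?_
  rw [Fintype.prod_bool, ← Complex.mul_conj]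
  simp only [if_true, Bool.false_eq_true, if_false]
  congr 1
  rw [map_sum]
  refine Finset.sum_congr rfl fun c _ => ?_
  rw [RingHom.map_mul, Complex.conj_ofReal]
  congr 1
  rw [← AddChar.map_neg_eq_conj]
  congr 1
  ring

theorem dform_add (u v : ZMod p × Bool → ZMod p) : dform (u + v) = dform u + dform v := by
  unfold dform
  rw [← Finset.sum_add_distrib]
  refine Finset.sum_congr rfl fun a _ => ?_
  simp only [Pi.add_apply]
  ring

theorem dform_smul (c : ZMod p) (u : ZMod p × Bool → ZMod p) : dform (c • u) = c * dform u := by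
  unfold dform
  rw [Finset.mul_sum]
  refine Finset.sum_congr rfl fun a _ => ?_
  simp only [Pi.smul_apply, smul_eq_mul]
  ring

variable {n n' : ℕ}

/-- Apply `dform` in each of `n` blocks of variables. -/
noncomputable def blockMap (σ : Fin n × (ZMod p × Bool) ≃ Fin n') :
    (Fin n' → ZMod p) →ₗ[ZMod p] (Fin n → ZMod p) where
  toFun y i := dform (fun x => y (σ (i, x)))
  map_add' y z := by
    funext i
    exact dform_add _ _
  map_smul' c y := by
    funext i
    exact dform_smul _ _

/-- A section of `blockMap`. -/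
noncomputable def blockSec (σ : Fin n × (ZMod p × Bool) ≃ Fin n') :
    (Fin n → ZMod p) →ₗ[ZMod p] (Fin n' → ZMod p) where
  toFun x k := if (σ.symm k).2 = (1, true) then x (σ.symm k).1 else 0
  map_add' x z := by
    funext k
    simp only [Pi.add_apply]
    split_ifs <;> simp
  map_smul' c y := by
    funext k
    simp only [Pi.smul_apply, smul_eq_mul, RingHom.id_apply]
    split_ifs <;> simp

theorem blockMap_blockSec (σ : Fin n × (ZMod p × Bool) ≃ Fin n') (x : Fin n → ZMod p) :
    blockMap σ (blockSec σ x) = x := by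
  funext i
  change dform (fun y => (if (σ.symm (σ (i, y))).2 = (1, true) then x (σ.symm (σ (i, y))).1
    else 0)) = x i
  simp only [Equiv.symm_apply_apply]
  unfold dform
  rw [Finset.sum_eq_single 1]
  · simp
  · intro a _ ha
    simp [ha]
  · intro h
    exact absurd (Finset.mem_univ _) h

theorem sum_block {R : Type*} [CommSemiring R] (σ : Fin n × (ZMod p × Bool) ≃ Fin n')
    (f : ℝ →+* R) (w : ZMod p → ℝ) (F : (Fin n → ZMod p) → R) :
    ∑ y : Fin n' → ZMod p, f (wpr w y) * F (blockMap σ y) =
      ∑ x : Fin n → ZMod p, f (wpr (dlaw w) x) * F x := by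
  classical
  let E : (Fin n' → ZMod p) ≃ (Fin n → (ZMod p × Bool → ZMod p)) :=
    (Equiv.arrowCongr σ.symm (Equiv.refl _)).trans (Equiv.curry _ _ _)
  have hE : ∀ y i x, E y i x = y (σ (i, x)) := fun y i x => rfl
  have h1 := sum_pushforward (ι := Fin n) (dform (p := p)) (fun u => f (wpr w u)) F
  rw [← E.sum_comp] at h1
  have h2 : ∀ y : Fin n' → ZMod p, ∏ i, f (wpr w (E y i)) = f (wpr w y) := by
    intro y
    rw [← map_prod]
    congr 1
    unfold wpr
    rw [← Fintype.prod_prod_type']
    simp only [hE]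
    exact σ.prod_comp (fun k => w (y k))
  simp only [h2] at h1
  have h3 : ∀ x : Fin n → ZMod p, (∏ i, ∑ a : ZMod p × Bool → ZMod p,
      if dform a = x i then f (wpr w a) else 0) = f (wpr (dlaw w) x) := by
    intro x
    unfold wpr dlaw
    rw [map_prod]
    refine Finset.prod_congr rfl fun i _ => ?_
    rw [map_sum]
    refine Finset.sum_congr rfl fun u _ => ?_
    split_ifs
    · rfl
    · simp
  simp only [h3] at h1
  exact h1

theorem sum_block_prod (σ : Fin n × (ZMod p × Bool) ≃ Fin n') (d : ℕ) (w : ZMod p → ℝ)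
    (F : (Fin d → (Fin n → ZMod p)) → ℂ) :
    ∑ y : Fin d → (Fin n' → ZMod p), ((∏ j, wpr w (y j) : ℝ) : ℂ) * F (fun j => blockMap σ (y j)) =
      ∑ x : Fin d → (Fin n → ZMod p), ((∏ j, wpr (dlaw w) (x j) : ℝ) : ℂ) * F x := by
  classical
  have h1 := sum_pushforward (ι := Fin d) (fun y : Fin n' → ZMod p => blockMap σ y)
    (fun y => ((wpr w y : ℝ) : ℂ)) F
  have h2 : ∀ z : Fin n → ZMod p, (∑ y : Fin n' → ZMod p,
      if blockMap σ y = z then ((wpr w y : ℝ) : ℂ) else 0) = ((wpr (dlaw w) z : ℝ) : ℂ) := by
    intro z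
    have h3 := sum_block σ (Complex.ofRealHom) w (fun x => if x = z then (1 : ℂ) else 0)
    simp only [mul_ite, mul_one, mul_zero, Finset.sum_ite_eq', Finset.mem_univ, if_true] at h3
    exact h3
  simp only [h2] at h1
  push_cast
  exact h1

end block

end Pool.Agent.TH410
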