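import Pool.Agent.TH410.Converse

/-!
The linear partition rank bound for one alphabet is equivalent to the bound for the full
alphabet.
-/

namespace Pool.Agent.TH410

open Finset Module

variable {p : ℕ} [Fact p.Prime]

/-- One-letter factor of the character average of the block law. -/
noncomputable def gfac (w : ZMod p → ℝ) (b : ZMod p) : ℝ :=
  ∏ a : ZMod p, Complex.normSq (∑ c : ZMod p, ((w c : ℝ) : ℂ) *
        ZMod.stdAddChar (b * (c * a)))

theorem gfac_nonneg (w : ZMod p → ℝ) (b : ZMod p) : 0 ≤ gfac w b :=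
  Finset.prod_nonneg fun _ _ => Complex.normSq_nonneg _

theorem gfac_zero {w : ZMod p → ℝ} (hw1 : ∑ c, w c = 1) : gfac w 0 = 1 := by
  unfold gfac
  apply Finset.prod_eq_one
  intro a _
  simp only [zero_mul, AddChar.map_zero_eq_one, mul_one]
  rw [← Complex.ofReal_sum, hw1]
  simp

theorem bias_block {n n' e : ℕ} (σ : Fin n × (ZMod p × Bool) ≃ Fin n') (S : Finset (ZMod p))
    (m : Form p (e + 1) n) :
    bias S 1 (m.compLinearMap (fun _ => blockMap σ) : Form p (e + 1) n') =
      ((pavg (wpr (dlaw (uw S))) e (fun x => ∏ i, gfac (uw S) (coeff m x i)) : ℝ) : ℂ) := by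
  rw [bias_eq]
  have h1 := sum_block_prod σ (e + 1) (uw S) (fun x => ZMod.stdAddChar (1 * m x))
  have h2 : ∀ y : Fin (e + 1) → (Fin n' → ZMod p),
      (m.compLinearMap (fun _ => blockMap σ) : Form p (e + 1) n') y =
        m (fun j => blockMap σ (y j)) := fun y => rfl
  simp only [h2]
  rw [h1, csum_succ]
  unfold pavg
  push_cast
  refine Finset.sum_congr rfl fun x _ => ?_
  congr 1
  simp only [coeff_spec]
  rw [inner_avg]
  refine Finset.prod_congr rfl fun i _ => ?_
  have h3 : ∀ c : ZMod p, 1 * (c * coeff m x i) = coeff m x i * c := fun c => by ring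
  simp only [h3]
  exact dlaw_char (uw S) (coeff m x i)

theorem lower_compare {S : Finset (ZMod p)} (hS : 2 ≤ S.card) (e : ℕ) :
    ∃ C : ℝ, 1 ≤ C ∧ ∀ (n : ℕ) (m : Form p (e + 2) n), ∃ (n' : ℕ) (m' : Form p (e + 2) n'),
      (∀ r, PRLe m' r → PRLe m r) ∧ ‖bias univ 1 m‖ ^ C ≤ ‖bias S 1 m'‖ := by
  classical
  have hw1 : ∑ c, uw S c = 1 := uw_sum (by omega)
  have hd1 : ∑ z, dlaw (uw S) z = 1 := dlaw_sum hw1
  obtain ⟨z₀, -, hz₀⟩ := Finset.exists_min_image univ (dlaw (uw S)) ⟨0, Finset.mem_univ _⟩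
  set μ₀ := dlaw (uw S) z₀ with hμ₀
  have hμpos : 0 < μ₀ := dlaw_pos hS z₀
  have hμle : ∀ c, μ₀ ≤ dlaw (uw S) c := fun c => hz₀ c (Finset.mem_univ c)
  have hq : (1 : ℝ) < (Fintype.card (ZMod p) : ℝ) := card_real_one_lt
  have hlogq : 0 < Real.log (Fintype.card (ZMod p)) := Real.log_pos hq
  have hμq : (Fintype.card (ZMod p) : ℝ) ≤ μ₀⁻¹ := by
    have h1 : ∑ _z : ZMod p, μ₀ ≤ ∑ z, dlaw (uw S) z := Finset.sum_le_sum fun z _ => hμle z
    rw [hd1, Finset.sum_const, nsmul_eq_mul, Finset.card_univ] at h1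
    rw [← one_div, le_div_iff₀ hμpos]
    exact h1
  set c : ℝ := Real.log (μ₀⁻¹) / Real.log (Fintype.card (ZMod p)) with hc
  have hc1 : 1 ≤ c := by
    rw [hc, le_div_iff₀ hlogq, one_mul]
    exact Real.log_le_log (by linarith) hμq
  refine ⟨c ^ (e + 1), one_le_pow₀ hc1, ?_⟩
  intro n m
  refine ⟨Fintype.card (Fin n × (ZMod p × Bool)),
    m.compLinearMap (fun _ => blockMap (Fintype.equivFin _)), ?_, ?_⟩
  · intro r hr
    have h1 := hr.comp (blockSec (Fintype.equivFin (Fin n × (ZMod p × Bool))))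
    have h2 : (MultilinearMap.compLinearMap (m.compLinearMap (fun _ => blockMap
        (Fintype.equivFin (Fin n × (ZMod p × Bool))))) (fun _ => blockSec
        (Fintype.equivFin (Fin n × (ZMod p × Bool)))) : Form p (e + 2) n) = m := by
      refine MultilinearMap.ext fun x => ?_
      rw [MultilinearMap.compLinearMap_apply, MultilinearMap.compLinearMap_apply]
      congr 1
      funext j
      exact blockMap_blockSec _ _
    rwa [h2] at h1
  · have hpos : ∀ x : Fin n → ZMod p, 0 ≤ wpr (dlaw (uw S)) x :=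
      fun x => wpr_nonneg (fun z => (dlaw_pos hS z).le) x
    have hinner : ∀ y : Fin n → ZMod p, zind y ≤ ∏ i, gfac (uw S) (y i) := by
      intro y
      unfold zind
      split_ifs with hy
      · rw [hy]
        simp only [Pi.zero_apply, gfac_zero hw1, Finset.prod_const_one]
        exact le_rfl
      · exact Finset.prod_nonneg fun _ _ => gfac_nonneg _ _
    rw [bias_block, Complex.norm_real, Real.norm_of_nonneg (pavg_nonneg hpos _ fun x =>
      Finset.prod_nonneg fun _ _ => gfac_nonneg _ _), norm_bias_univ one_ne_zero]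
    refine le_trans ?_ (pavg_mono hpos (e + 1) (f := fun x => zind (coeff m x))
      (fun x => hinner _))
    exact hybrid_lower (K := ZMod p) hpos (wpr_sum hd1) unif_nonneg unif_sum hc1
      (fun L => lower_one L hd1 hμpos hμle) e (coeff m)

/-- The case of one alphabet with two letters implies the full-alphabet case. -/
theorem LinearBound.to_univ {d : ℕ} (hd : 2 ≤ d) {S : Finset (ZMod p)} (hS : 2 ≤ S.card)
    (h : LinearBound p d S) : LinearBound p d univ := by
  obtain ⟨e, rfl⟩ : ∃ e, d = e + 2 := ⟨d - 2, by omega⟩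
  obtain ⟨c, hc1, hc⟩ := lower_compare hS e
  obtain ⟨C, hC0, hC⟩ := h
  have hc0 : 0 < c := by linarith
  refine ⟨C * c, by positivity, ?_⟩
  intro n ε m hε hε1 ⟨t, ht, hbias⟩
  have hB0 := bias_univ_pos m
  have hB1 := bias_univ_le_one m
  have hBε : ε ≤ ‖bias univ 1 m‖ := by
    rw [norm_bias_univ ht] at hbias
    rw [norm_bias_univ one_ne_zero]
    exact hbias
  obtain ⟨n', m', hpr, hle⟩ := hc n m
  obtain ⟨r, hr, hrC⟩ := hC n' (‖bias univ 1 m‖ ^ c) m' (Real.rpow_pos_of_pos hB0 c)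
    (Real.rpow_le_one hB0.le hB1 hc0.le) ⟨1, one_ne_zero, hle⟩
  refine ⟨r, hpr r hr, hrC.trans ?_⟩
  rw [one_div, one_div, Real.log_inv, Real.log_inv, Real.log_rpow hB0, mul_assoc]
  apply mul_le_mul_of_nonneg_left _ hC0.le
  have h2 := Real.log_le_log hε hBε
  nlinarith

end Pool.Agent.TH410
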