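import Pool.Agent.TH410.Coset

/-!
Multilinear forms over a prime field: bias on a restricted alphabet and partition rank.
-/

namespace Pool.Agent.TH410

open Finset Module

/-- `d`-linear forms on `F_p^n`. -/
abbrev Form (p d n : ℕ) : Type :=
  MultilinearMap (ZMod p) (fun _ : Fin d => (Fin n → ZMod p)) (ZMod p)

variable {p : ℕ} [Fact p.Prime]

/-- The set `(S^n)^d` of all `x = (x_1, ..., x_d)` with every `x_j` in `S^n`. -/
def box (S : Finset (ZMod p)) (d n : ℕ) : Finset (Fin d → (Fin n → ZMod p)) :=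
  Fintype.piFinset (fun _ : Fin d => Fintype.piFinset (fun _ : Fin n => S))

/-- `bias_{t,S} m`, the uniform average of `exp (2 π i t m(x) / p)` over `(S^n)^d`. -/
noncomputable def bias {d n : ℕ} (S : Finset (ZMod p)) (t : ZMod p) (m : Form p d n) : ℂ :=
  (∑ x ∈ box S d n, ZMod.stdAddChar (t * m x)) / ((box S d n).card : ℂ)

/-- `T` is a product `a (x_I) b (x_{I^c})` for a non-empty proper set `I` of arguments, with `a`
and `b` multilinear in the indicated arguments. -/
def IsSplit {d n : ℕ} (T : Form p d n) : Prop :=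
  ∃ I : Finset (Fin d), I.Nonempty ∧ I ≠ univ ∧
    ∃ (a : MultilinearMap (ZMod p) (fun _ : {i // i ∈ I} => (Fin n → ZMod p)) (ZMod p))
      (b : MultilinearMap (ZMod p) (fun _ : {i // i ∉ I} => (Fin n → ZMod p)) (ZMod p)),
      ∀ x : Fin d → (Fin n → ZMod p), T x = a (fun i => x i) * b (fun i => x i)

/-- Partition rank at most `r`: `m` is a sum of `r` split forms. -/
def PRLe {d n : ℕ} (m : Form p d n) (r : ℕ) : Prop :=
  ∃ T : Fin r → Form p d n, (∀ k, IsSplit (T k)) ∧ m = ∑ k, T k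

/-- The assertion of the problem for fixed `p`, `d` and `S`: there is `C > 0` such that, for all
`n`, all `ε` in `(0, 1]` and all `d`-linear `m`, if `|bias_{t,S} m| ≥ ε` for some `t ≠ 0` then
`pr m ≤ C log (1 / ε)`. -/
def LinearBound (p : ℕ) [Fact p.Prime] (d : ℕ) (S : Finset (ZMod p)) : Prop :=
  ∃ C : ℝ, 0 < C ∧ ∀ (n : ℕ) (ε : ℝ) (m : Form p d n), 0 < ε → ε ≤ 1 →
    (∃ t : ZMod p, t ≠ 0 ∧ ε ≤ ‖bias S t m‖) →
    ∃ r : ℕ, PRLe m r ∧ (r : ℝ) ≤ C * Real.log (1 / ε)

section weights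

/-- The uniform weight on `S`. -/
noncomputable def uw (S : Finset (ZMod p)) (c : ZMod p) : ℝ := if c ∈ S then (S.card : ℝ)⁻¹ else 0

omit [Fact p.Prime] in
theorem uw_nonneg (S : Finset (ZMod p)) (c : ZMod p) : 0 ≤ uw S c := by
  unfold uw; split_ifs <;> positivity

theorem uw_sum {S : Finset (ZMod p)} (hS : 0 < S.card) : ∑ c, uw S c = 1 := by
  unfold uw
  rw [← Finset.sum_filter, Finset.filter_mem_eq_inter, Finset.univ_inter, Finset.sum_const,
    nsmul_eq_mul]
  have : (S.card : ℝ) ≠ 0 := by exact_mod_cast hS.ne'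
  field_simp

omit [Fact p.Prime] in
theorem uw_le {S : Finset (ZMod p)} (hS : 2 ≤ S.card) (c : ZMod p) : uw S c ≤ 1 / 2 := by
  unfold uw
  split_ifs
  · rw [one_div]
    apply inv_anti₀ (by norm_num)
    exact_mod_cast hS
  · norm_num

theorem uw_univ : uw (univ : Finset (ZMod p)) = fun _ => ((Fintype.card (ZMod p) : ℝ))⁻¹ := by
  funext c
  simp [uw]

/-- The bias as a weighted average. -/
theorem bias_eq {d n : ℕ} (S : Finset (ZMod p)) (t : ZMod p) (m : Form p d n) :
    bias S t m = ∑ x : Fin d → (Fin n → ZMod p),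
      ((∏ j, wpr (uw S) (x j) : ℝ) : ℂ) * ZMod.stdAddChar (t * m x) := by
  unfold bias
  rw [Finset.sum_div]
  rw [← Finset.sum_subset (Finset.subset_univ (box S d n))]
  · refine Finset.sum_congr rfl fun x hx => ?_
    have hx' : ∀ j i, x j i ∈ S := by
      intro j i
      unfold box at hx
      rw [Fintype.mem_piFinset] at hx
      exact Fintype.mem_piFinset.mp (hx j) i
    have h1 : ∏ j, wpr (uw S) (x j) = ((box S d n).card : ℝ)⁻¹ := by
      unfold wpr uw box
      simp only [hx', if_true, Finset.prod_const, Fintype.card_piFinset, Finset.card_univ,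
        Fintype.card_fin]
      push_cast
      rw [inv_pow, inv_pow]
    rw [h1]
    push_cast
    rw [div_eq_mul_inv, mul_comm]
  · intro x _ hx
    have hx' : ∃ j i, x j i ∉ S := by
      by_contra hcon
      push Not at hcon
      apply hx
      unfold box
      rw [Fintype.mem_piFinset]
      intro j
      rw [Fintype.mem_piFinset]
      exact hcon j
    obtain ⟨j, i, hji⟩ := hx'
    have h1 : ∏ j, wpr (uw S) (x j) = 0 := by
      apply Finset.prod_eq_zero (Finset.mem_univ j)
      unfold wpr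
      apply Finset.prod_eq_zero (Finset.mem_univ i)
      unfold uw
      rw [if_neg hji]
    rw [h1]
    simp

/-- Vector of the partial forms with the first argument a coordinate vector. -/
noncomputable def coeff {e n : ℕ} (m : Form p (e + 1) n) :
    MultilinearMap (ZMod p) (fun _ : Fin e => (Fin n → ZMod p)) (Fin n → ZMod p) :=
  MultilinearMap.pi (fun i => m.curryLeft (Pi.single i 1))

theorem coeff_spec {e n : ℕ} (m : Form p (e + 1) n) (a : Fin n → ZMod p)
    (x : Fin e → (Fin n → ZMod p)) : m (Fin.cons a x) = ∑ i, a i * coeff m x i := by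
  have h1 : a = ∑ i, a i • (Pi.single i (1 : ZMod p) : Fin n → ZMod p) := by
    funext j
    simp [Finset.sum_apply, Pi.single_apply]
  have h2 : m.curryLeft a = ∑ i, a i • m.curryLeft (Pi.single i 1) := by
    conv_lhs => rw [h1]
    rw [map_sum]
    exact Finset.sum_congr rfl fun i _ => by rw [map_smul]
  change m.curryLeft a x = _
  rw [h2, _root_.sum_apply]
  refine Finset.sum_congr rfl fun i _ => ?_
  rw [smul_apply, smul_eq_mul]
  rfl

theorem char_sum {ι : Type*} (s : Finset ι) (f : ι → ZMod p) :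
    (ZMod.stdAddChar (∑ i ∈ s, f i) : ℂ) = ∏ i ∈ s, ZMod.stdAddChar (f i) := by
  classical
  induction s using Finset.induction_on with
  | empty => simp
  | insert a s ha ih => rw [Finset.sum_insert ha, Finset.prod_insert ha, AddChar.map_add_eq_mul, ih]

/-- Factorisation of the inner average. -/
theorem inner_avg {n : ℕ} (w : ZMod p → ℝ) (t : ZMod p) (y : Fin n → ZMod p) :
    ∑ a : Fin n → ZMod p, ((wpr w a : ℝ) : ℂ) * ZMod.stdAddChar (t * ∑ i, a i * y i) =
      ∏ i, ∑ c : ZMod p, ((w c : ℝ) : ℂ) * ZMod.stdAddChar (t * (c * y i)) := by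
  have h2 := Finset.prod_univ_sum (fun _ : Fin n => (Finset.univ : Finset (ZMod p)))
    (fun (i : Fin n) c => ((w c : ℝ) : ℂ) * ZMod.stdAddChar (t * (c * y i)))
  rw [Fintype.piFinset_univ] at h2
  rw [h2]
  refine Finset.sum_congr rfl fun a _ => ?_
  rw [Finset.prod_mul_distrib, Finset.mul_sum, char_sum]
  unfold wpr
  push_cast
  rfl

/-- Character sums of the uniform weight on a set with two elements are small. -/
theorem exists_kappa {S : Finset (ZMod p)} (hS : 2 ≤ S.card) :
    ∃ κ : ℝ, 0 ≤ κ ∧ κ < 1 ∧ ∀ a : ZMod p, a ≠ 0 →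
      ‖∑ c : ZMod p, ((uw S c : ℝ) : ℂ) * ZMod.stdAddChar (c * a)‖ ≤ κ := by
  classical
  have hone : ∀ a : ZMod p, a ≠ 0 →
      ‖∑ c : ZMod p, ((uw S c : ℝ) : ℂ) * ZMod.stdAddChar (c * a)‖ < 1 := by
    intro a ha
    obtain ⟨c1, hc1, c2, hc2, hne⟩ := Finset.one_lt_card.mp (show 1 < S.card by omega)
    have hnorm : ∀ c : ZMod p, ‖((uw S c : ℝ) : ℂ) * ZMod.stdAddChar (c * a)‖ = uw S c := by
      intro c
      rw [norm_mul, Complex.norm_real, Real.norm_of_nonneg (uw_nonneg S c),
        AddChar.norm_apply, mul_one]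
    rw [← Finset.add_sum_erase _ _ (Finset.mem_univ c1),
      ← Finset.add_sum_erase _ _ (Finset.mem_erase.mpr ⟨hne.symm, Finset.mem_univ c2⟩), ← add_assoc]
    have hstrict : ‖((uw S c1 : ℝ) : ℂ) * ZMod.stdAddChar (c1 * a) +
        ((uw S c2 : ℝ) : ℂ) * ZMod.stdAddChar (c2 * a)‖ < uw S c1 + uw S c2 := by
      have h1 : ¬ SameRay ℝ (((uw S c1 : ℝ) : ℂ) * ZMod.stdAddChar (c1 * a))
          (((uw S c2 : ℝ) : ℂ) * ZMod.stdAddChar (c2 * a)) := by
        have e12 : uw S c1 = uw S c2 := by unfold uw; rw [if_pos hc1, if_pos hc2]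
        have hpos : 0 < uw S c2 := by
          unfold uw; rw [if_pos hc2]
          have : (0 : ℝ) < (S.card : ℝ) := by exact_mod_cast (by omega : 0 < S.card)
          positivity
        rw [sameRay_iff_of_norm_eq (by rw [hnorm, hnorm, e12]), e12]
        intro h
        have h2 : (ZMod.stdAddChar (c1 * a) : ℂ) = ZMod.stdAddChar (c2 * a) :=
          mul_left_cancel₀ (by exact_mod_cast hpos.ne') h
        exact hne (mul_right_cancel₀ ha (ZMod.injective_stdAddChar h2))
      have h2 := norm_add_lt_of_not_sameRay h1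
      rwa [hnorm, hnorm] at h2
    calc _ ≤ ‖((uw S c1 : ℝ) : ℂ) * ZMod.stdAddChar (c1 * a) +
        ((uw S c2 : ℝ) : ℂ) * ZMod.stdAddChar (c2 * a)‖ +
          ‖∑ x ∈ (univ.erase c1).erase c2, ((uw S x : ℝ) : ℂ) * ZMod.stdAddChar (x * a)‖ :=
          norm_add_le _ _
      _ < (uw S c1 + uw S c2) + ∑ x ∈ (univ.erase c1).erase c2, uw S x := by
          apply add_lt_add_of_lt_of_le hstrict
          refine (norm_sum_le _ _).trans (le_of_eq ?_)
          exact Finset.sum_congr rfl fun x _ => hnorm x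
      _ = ∑ c, uw S c := by
          rw [← Finset.add_sum_erase _ (uw S) (Finset.mem_univ c1),
            ← Finset.add_sum_erase _ (uw S) (Finset.mem_erase.mpr ⟨hne.symm, Finset.mem_univ c2⟩),
            add_assoc]
      _ = 1 := uw_sum (by omega)
  have hne : (univ.erase (0 : ZMod p)).Nonempty :=
    ⟨1, Finset.mem_erase.mpr ⟨one_ne_zero, Finset.mem_univ (1 : ZMod p)⟩⟩
  refine ⟨(univ.erase (0 : ZMod p)).sup' hne (fun a =>
    ‖∑ c : ZMod p, ((uw S c : ℝ) : ℂ) * ZMod.stdAddChar (c * a)‖), ?_, ?_, ?_⟩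
  · refine le_trans (norm_nonneg _) (Finset.le_sup' (fun a =>
      ‖∑ c : ZMod p, ((uw S c : ℝ) : ℂ) * ZMod.stdAddChar (c * a)‖) (b := 1) (by simp))
  · exact (Finset.sup'_lt_iff hne).mpr fun a ha => hone a (Finset.ne_of_mem_erase ha)
  · intro a ha
    exact Finset.le_sup' (fun a =>
      ‖∑ c : ZMod p, ((uw S c : ℝ) : ℂ) * ZMod.stdAddChar (c * a)‖)
      (Finset.mem_erase.mpr ⟨ha, Finset.mem_univ a⟩)

/-- Splitting a weighted sum over `Fin (e+1)` arguments. -/
theorem csum_succ {V : Type*} [Fintype V] (μ : V → ℝ) (e : ℕ) (f : (Fin (e + 1) → V) → ℂ) :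
    ∑ x : Fin (e + 1) → V, ((∏ j, μ (x j) : ℝ) : ℂ) * f x =
      ∑ x : Fin e → V, ((∏ j, μ (x j) : ℝ) : ℂ) * ∑ a, ((μ a : ℝ) : ℂ) * f (Fin.cons a x) := by
  rw [← (Fin.consEquiv (fun _ : Fin (e + 1) => V)).sum_comp, Fintype.sum_prod_type,
    Finset.sum_comm]
  refine Finset.sum_congr rfl fun x _ => ?_
  rw [Finset.mul_sum]
  refine Finset.sum_congr rfl fun a _ => ?_
  change ((∏ j, μ ((Fin.cons a x : Fin (e + 1) → V) j) : ℝ) : ℂ) * f (Fin.cons a x) = _
  simp only [Fin.prod_univ_succ, Fin.cons_zero, Fin.cons_succ]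
  push_cast
  ring

/-- `bias_{t,S} m` is at most the average damping of the coefficient vector. -/
theorem norm_bias_le {e n : ℕ} {S : Finset (ZMod p)} (hS : 2 ≤ S.card) {κ : ℝ}
    (hκ : ∀ a : ZMod p, a ≠ 0 →
      ‖∑ c : ZMod p, ((uw S c : ℝ) : ℂ) * ZMod.stdAddChar (c * a)‖ ≤ κ)
    {t : ZMod p} (ht : t ≠ 0) (m : Form p (e + 1) n) :
    ‖bias S t m‖ ≤ pavg (wpr (uw S)) e (fun x => wpr (dmp κ) (coeff m x)) := by
  rw [bias_eq, csum_succ]
  refine (norm_sum_le _ _).trans ?_
  unfold pavg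
  apply Finset.sum_le_sum
  intro x _
  have h0 : 0 ≤ ∏ j, wpr (uw S) (x j) := Finset.prod_nonneg fun _ _ => wpr_nonneg (uw_nonneg S) _
  rw [norm_mul, Complex.norm_real, Real.norm_of_nonneg h0]
  apply mul_le_mul_of_nonneg_left _ h0
  simp only [coeff_spec]
  rw [inner_avg, norm_prod]
  unfold wpr
  apply Finset.prod_le_prod (fun _ _ => norm_nonneg _)
  intro i _
  unfold dmp
  by_cases hy : coeff m x i = 0
  · rw [if_pos hy, hy]
    simp only [mul_zero, AddChar.map_zero_eq_one, mul_one]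
    rw [← Complex.ofReal_sum, uw_sum (by omega)]
    simp
  · rw [if_neg hy]
    have h2 : ∀ c : ZMod p, t * (c * coeff m x i) = c * (t * coeff m x i) := fun c => by ring
    simp only [h2]
    exact hκ _ (mul_ne_zero ht hy)

/-- The full-alphabet bias is the frequency of vanishing of the coefficient vector. -/
theorem bias_univ {e n : ℕ} {t : ZMod p} (ht : t ≠ 0) (m : Form p (e + 1) n) :
    bias univ t m = ((pavg (wpr (fun _ => ((Fintype.card (ZMod p) : ℝ))⁻¹)) e
      (fun x => zind (coeff m x)) : ℝ) : ℂ) := by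
  rw [bias_eq, csum_succ]
  unfold pavg
  push_cast
  rw [← uw_univ]
  refine Finset.sum_congr rfl fun x _ => ?_
  congr 1
  simp only [coeff_spec]
  rw [inner_avg]
  have hfac : ∀ i, ∑ c : ZMod p, ((uw univ c : ℝ) : ℂ) * ZMod.stdAddChar (t * (c * coeff m x i)) =
      if coeff m x i = 0 then 1 else 0 := by
    intro i
    have h2 : ∀ c : ZMod p, t * (c * coeff m x i) = c * (t * coeff m x i) := fun c => by ring
    simp only [h2, uw_univ]
    rw [← Finset.mul_sum, AddChar.sum_mulShift _ (ZMod.isPrimitive_stdAddChar p)]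
    by_cases hy : coeff m x i = 0
    · rw [if_pos hy, if_pos (by rw [hy, mul_zero])]
      push_cast
      have : ((Fintype.card (ZMod p) : ℕ) : ℂ) ≠ 0 := by exact_mod_cast Fintype.card_ne_zero
      field_simp
    · rw [if_neg hy, if_neg (mul_ne_zero ht hy)]
      simp
  simp only [hfac]
  unfold zind
  by_cases hz : coeff m x = 0
  · rw [if_pos hz, hz]
    simp
  · rw [if_neg hz]
    obtain ⟨i, hi⟩ := Function.ne_iff.mp hz
    rw [Complex.ofReal_zero]
    apply Finset.prod_eq_zero (Finset.mem_univ i)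
    rw [if_neg]
    exact hi

end weights

end Pool.Agent.TH410
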