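import Pool.Agent.TH410.Forms

/-!
Partition rank of forms vanishing on a product of subspaces; behaviour under linear maps.
-/

namespace Pool.Agent.TH410

open Finset Module

variable {p : ℕ} [Fact p.Prime] {d n : ℕ}

theorem prle_of_fintype {κ : Type*} [Fintype κ] {m : Form p d n} (T : κ → Form p d n)
    (hT : ∀ k, IsSplit (T k)) (hm : m = ∑ k, T k) : PRLe m (Fintype.card κ) := by
  refine ⟨fun k => T ((Fintype.equivFin κ).symm k), fun k => hT _, ?_⟩
  rw [hm]
  exact ((Fintype.equivFin κ).symm.sum_comp T).symm

theorem PRLe.add {m m' : Form p d n} {r r' : ℕ} (h : PRLe m r) (h' : PRLe m' r') :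
    PRLe (m + m') (r + r') := by
  obtain ⟨T, hT, rfl⟩ := h
  obtain ⟨T', hT', rfl⟩ := h'
  have := prle_of_fintype (κ := Fin r ⊕ Fin r') (m := ∑ k, T k + ∑ k, T' k)
    (Sum.elim T T') (by rintro (k | k); exacts [hT k, hT' k]) (by simp)
  simpa using this

theorem prle_zero : PRLe (0 : Form p d n) 0 := ⟨fun k => k.elim0, fun k => k.elim0, by simp⟩

/-- composition with a linear map in the `i`-th argument -/
noncomputable def slot (m : Form p d n) (i : Fin d)
    (f : (Fin n → ZMod p) →ₗ[ZMod p] (Fin n → ZMod p)) : Form p d n :=
  m.compLinearMap (Function.update (fun _ => LinearMap.id) i f)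

theorem slot_apply (m : Form p d n) (i : Fin d)
    (f : (Fin n → ZMod p) →ₗ[ZMod p] (Fin n → ZMod p)) (x : Fin d → (Fin n → ZMod p)) :
    slot m i f x = m (Function.update x i (f (x i))) := by
  unfold slot
  rw [MultilinearMap.compLinearMap_apply]
  congr 1
  funext j
  by_cases hj : j = i
  · subst hj
    rw [Function.update_self, Function.update_self]
  · rw [Function.update_of_ne hj, Function.update_of_ne hj]
    rfl

theorem isSplit_slot (hd : 2 ≤ d) (m : Form p d n) (i : Fin d)
    (α : (Fin n → ZMod p) →ₗ[ZMod p] ZMod p) (e : Fin n → ZMod p) :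
    IsSplit (slot m i (α.smulRight e)) := by
  classical
  refine ⟨{i}, Finset.singleton_nonempty i, ?_, ?_⟩
  · intro h
    have := congrArg Finset.card h
    rw [Finset.card_singleton, Finset.card_univ, Fintype.card_fin] at this
    omega
  · refine ⟨MultilinearMap.mk' (fun y => α (y ⟨i, Finset.mem_singleton_self i⟩)) ?_ ?_,
      MultilinearMap.mk' (fun y => m (fun j => if h : j ∈ ({i} : Finset (Fin d)) then e
        else y ⟨j, h⟩)) ?_ ?_, ?_⟩
    · rintro y ⟨j, hj⟩ a b
      obtain rfl := Finset.mem_singleton.mp hj
      simp only [Function.update_self, map_add]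
    · rintro y ⟨j, hj⟩ a b
      obtain rfl := Finset.mem_singleton.mp hj
      simp only [Function.update_self, map_smul]
    · have hupd : ∀ (y : {j // j ∉ ({i} : Finset (Fin d))} → (Fin n → ZMod p))
          (j₀ : {j // j ∉ ({i} : Finset (Fin d))}) (v : Fin n → ZMod p),
          (fun j => if h : j ∈ ({i} : Finset (Fin d)) then e
            else (Function.update y j₀ v) ⟨j, h⟩) =
          Function.update (fun j => if h : j ∈ ({i} : Finset (Fin d)) then e
            else y ⟨j, h⟩) j₀.1 v := by
        intro y j₀ v
        funext j
        by_cases hj : j = j₀.1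
        · subst hj
          rw [Function.update_self, dif_neg j₀.2]
          exact Function.update_self _ _ _
        · rw [Function.update_of_ne hj]
          by_cases hji : j ∈ ({i} : Finset (Fin d))
          · rw [dif_pos hji, dif_pos hji]
          · rw [dif_neg hji, dif_neg hji, Function.update_of_ne]
            intro h
            exact hj (congrArg Subtype.val h)
      intro y j₀ a b
      simp only [hupd]
      rw [MultilinearMap.map_update_add]
    · have hupd : ∀ (y : {j // j ∉ ({i} : Finset (Fin d))} → (Fin n → ZMod p))
          (j₀ : {j // j ∉ ({i} : Finset (Fin d))}) (v : Fin n → ZMod p),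
          (fun j => if h : j ∈ ({i} : Finset (Fin d)) then e
            else (Function.update y j₀ v) ⟨j, h⟩) =
          Function.update (fun j => if h : j ∈ ({i} : Finset (Fin d)) then e
            else y ⟨j, h⟩) j₀.1 v := by
        intro y j₀ v
        funext j
        by_cases hj : j = j₀.1
        · subst hj
          rw [Function.update_self, dif_neg j₀.2]
          exact Function.update_self _ _ _
        · rw [Function.update_of_ne hj]
          by_cases hji : j ∈ ({i} : Finset (Fin d))
          · rw [dif_pos hji, dif_pos hji]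
          · rw [dif_neg hji, dif_neg hji, Function.update_of_ne]
            intro h
            exact hj (congrArg Subtype.val h)
      intro y j₀ a b
      simp only [hupd]
      rw [MultilinearMap.map_update_smul]
    · intro x
      rw [slot_apply]
      change m (Function.update x i ((α (x i)) • e)) = α (x i) * m (fun j =>
        if h : j ∈ ({i} : Finset (Fin d)) then e else x j)
      rw [MultilinearMap.map_update_smul, smul_eq_mul]
      congr 2
      funext j
      by_cases hj : j = i
      · subst hj
        rw [Function.update_self, dif_pos (Finset.mem_singleton_self j)]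
      · rw [Function.update_of_ne hj, dif_neg (by simpa using hj)]

/-- Removing one argument from a subspace of codimension `c` costs `c` split forms. -/
theorem exists_proj (P : Submodule (ZMod p) (Fin n → ZMod p)) :
    ∃ (π : (Fin n → ZMod p) →ₗ[ZMod p] (Fin n → ZMod p)) (c : ℕ)
      (α : Fin c → ((Fin n → ZMod p) →ₗ[ZMod p] ZMod p)) (e : Fin c → (Fin n → ZMod p)),
      (∀ v, π v ∈ P) ∧ c = finrank (ZMod p) (Fin n → ZMod p) - finrank (ZMod p) P ∧
      ∀ v, v = π v + ∑ k, α k v • e k := by
  obtain ⟨Q, hQ⟩ := Submodule.exists_isCompl P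
  let b := Module.finBasis (ZMod p) Q
  refine ⟨P.projection Q hQ, finrank (ZMod p) Q,
    fun k => (b.coord k) ∘ₗ (Submodule.projectionOnto Q P hQ.symm),
    fun k => (b k : Fin n → ZMod p), ?_, ?_, ?_⟩
  · intro v
    exact Submodule.projection_apply_mem hQ v
  · have := Submodule.finrank_add_eq_of_isCompl hQ
    omega
  · intro v
    have h1 := Submodule.projection_add_projection_eq_self hQ v
    have h2 : Q.projection P hQ.symm v =
        ∑ k, (b.coord k (Submodule.projectionOnto Q P hQ.symm v)) • (b k : Fin n → ZMod p) := by
      have h3 := congrArg Subtype.val (b.sum_repr (Submodule.projectionOnto Q P hQ.symm v))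
      rw [Submodule.coe_projectionOnto_apply] at h3
      rw [← h3]
      push_cast
      rfl
    conv_lhs => rw [← h1, h2]
    rfl

theorem slot_step (hd : 2 ≤ d) (m : Form p d n) (i : Fin d)
    (P : Submodule (ZMod p) (Fin n → ZMod p)) :
    ∃ π : (Fin n → ZMod p) →ₗ[ZMod p] (Fin n → ZMod p), (∀ v, π v ∈ P) ∧
      ∀ r, PRLe (slot m i π) r →
        PRLe m (r + (finrank (ZMod p) (Fin n → ZMod p) - finrank (ZMod p) P)) := by
  obtain ⟨π, c, α, e, hπ, hc, hdec⟩ := exists_proj P
  refine ⟨π, hπ, fun r hr => ?_⟩
  rw [← hc]
  have h1 : m = slot m i π + ∑ k, slot m i ((α k).smulRight (e k)) := by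
    refine MultilinearMap.ext fun x => ?_
    rw [add_apply, _root_.sum_apply]
    simp only [slot_apply]
    rw [← MultilinearMap.map_update_sum, ← MultilinearMap.map_update_add]
    have h2 : π (x i) + ∑ k, ((α k).smulRight (e k)) (x i) = x i := (hdec (x i)).symm
    rw [h2, Function.update_eq_self]
  have h3 : PRLe (∑ k, slot m i ((α k).smulRight (e k))) c :=
    ⟨fun k => slot m i ((α k).smulRight (e k)), fun k => isSplit_slot hd m i _ _, rfl⟩
  rw [h1]
  exact hr.add h3

/-- A form vanishing on a product of subspaces has partition rank at most the total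
codimension. -/
theorem prle_of_vanish (hd : 2 ≤ d) (P : Fin d → Submodule (ZMod p) (Fin n → ZMod p)) :
    ∀ (s : Finset (Fin d)) (m : Form p d n), (∀ x, (∀ i ∈ s, x i ∈ P i) → m x = 0) →
      PRLe m (∑ i ∈ s, (finrank (ZMod p) (Fin n → ZMod p) - finrank (ZMod p) (P i))) := by
  classical
  intro s
  induction s using Finset.induction_on with
  | empty =>
    intro m hm
    have : m = 0 := MultilinearMap.ext fun x => hm x (by simp)
    rw [this]
    exact prle_zero
  | insert i s hi ih =>
    intro m hm
    obtain ⟨π, hπ, hstep⟩ := slot_step hd m i (P i)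
    rw [Finset.sum_insert hi, add_comm]
    apply hstep
    apply ih
    intro x hx
    rw [slot_apply]
    apply hm
    intro j hj
    by_cases hji : j = i
    · subst hji
      rw [Function.update_self]
      exact hπ _
    · rw [Function.update_of_ne hji]
      exact hx j ((Finset.mem_insert.mp hj).resolve_left hji)

end Pool.Agent.TH410
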