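import Pool.Agent.TH410.PRank
import Pool.Agent.TH410.Trilinear

/-!
Linear bounds for the partition rank of bilinear and trilinear forms on the full alphabet.
-/

namespace Pool.Agent.TH410

open Finset Module

variable {p : ℕ} [Fact p.Prime] {n : ℕ}

/-- uniform weight on vectors -/
noncomputable abbrev unif (p n : ℕ) [Fact p.Prime] : (Fin n → ZMod p) → ℝ :=
  wpr (fun _ => ((Fintype.card (ZMod p) : ℝ))⁻¹)

theorem unif_nonneg (x : Fin n → ZMod p) : 0 ≤ unif p n x :=
  wpr_nonneg (fun _ => by positivity) x

theorem unif_sum : ∑ x, unif p n x = 1 := wpr_sum (by simp)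

theorem unif_eq (x : Fin n → ZMod p) : unif p n x = ((Fintype.card (Fin n → ZMod p) : ℝ))⁻¹ := by
  unfold unif wpr
  simp

theorem norm_bias_univ {e : ℕ} {t : ZMod p} (ht : t ≠ 0) (m : Form p (e + 1) n) :
    ‖bias univ t m‖ = pavg (unif p n) e (fun x => zind (coeff m x)) := by
  rw [bias_univ ht, Complex.norm_real, Real.norm_of_nonneg]
  exact pavg_nonneg unif_nonneg _ fun _ => zind_nonneg _

theorem linearBound_two_univ : LinearBound p 2 univ := by
  have hq : (1 : ℝ) < (Fintype.card (ZMod p) : ℝ) := card_real_one_lt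
  have hlogq : 0 < Real.log (Fintype.card (ZMod p)) := Real.log_pos hq
  refine ⟨1 / Real.log (Fintype.card (ZMod p)), by positivity, ?_⟩
  intro n ε m hε hε1 ⟨t, ht, hbias⟩
  rw [norm_bias_univ ht, pavg_succ] at hbias
  simp only [pavg_zero] at hbias
  set L : (Fin n → ZMod p) →ₗ[ZMod p] (Fin n → ZMod p) := firstLin (coeff m) Fin.elim0 with hL
  have h1 : ∑ a, unif p n a * zind (coeff m (Fin.cons a Fin.elim0)) =
      ((Fintype.card (ZMod p) : ℝ)⁻¹) ^ finrank (ZMod p) (LinearMap.range L) :=
    uniform_ker L
  rw [h1] at hbias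
  have hvan := prle_of_vanish (le_refl 2) (fun _ => LinearMap.ker L) {1} m (by
    intro x hx
    have hx1 : L (x 1) = 0 := hx 1 (Finset.mem_singleton_self _)
    have hx' : x = Fin.cons (x 0) (Fin.cons (x 1) Fin.elim0) := by
      funext j
      refine Fin.cases rfl (fun j => ?_) j
      refine Fin.cases rfl (fun j => j.elim0) j
    rw [hx', coeff_spec]
    apply Finset.sum_eq_zero
    intro i _
    have : coeff m (Fin.cons (x 1) Fin.elim0) i = 0 := congrFun hx1 i
    rw [this, mul_zero])
  rw [Finset.sum_singleton] at hvan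
  refine ⟨_, hvan, ?_⟩
  have hrn := LinearMap.finrank_range_add_finrank_ker L
  have h2 : finrank (ZMod p) (Fin n → ZMod p) - finrank (ZMod p) (LinearMap.ker L) =
      finrank (ZMod p) (LinearMap.range L) := by omega
  rw [h2]
  have h3 : (finrank (ZMod p) (LinearMap.range L) : ℝ) * Real.log (Fintype.card (ZMod p)) ≤
      Real.log (1 / ε) := by
    have h4 := Real.log_le_log hε hbias
    rw [Real.log_pow, Real.log_inv] at h4
    rw [one_div, Real.log_inv]
    linarith
  rw [one_div_mul_eq_div, le_div_iff₀ hlogq]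
  exact h3

/-- the trilinear form as an iterated linear map -/
noncomputable def tri (m : Form p 3 n) : (Fin n → ZMod p) →ₗ[ZMod p] (Fin n → ZMod p) →ₗ[ZMod p]
    ((Fin n → ZMod p) →ₗ[ZMod p] ZMod p) :=
  LinearMap.mk₂ (ZMod p) (fun u v => firstLin m ![u, v])
    (by
      intro u u' v
      refine LinearMap.ext fun a => ?_
      change m (Fin.cons a ![u + u', v]) = m (Fin.cons a ![u, v]) + m (Fin.cons a ![u', v])
      have h : ∀ w, (Fin.cons a ![w, v] : Fin 3 → (Fin n → ZMod p)) =
          Function.update (Fin.cons a ![0, v] : Fin 3 → (Fin n → ZMod p)) 1 w := by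
        intro w
        funext j
        fin_cases j <;> rfl
      rw [h, h u, h u', MultilinearMap.map_update_add])
    (by
      intro c u v
      refine LinearMap.ext fun a => ?_
      change m (Fin.cons a ![c • u, v]) = c • m (Fin.cons a ![u, v])
      have h : ∀ w, (Fin.cons a ![w, v] : Fin 3 → (Fin n → ZMod p)) =
          Function.update (Fin.cons a ![0, v] : Fin 3 → (Fin n → ZMod p)) 1 w := by
        intro w
        funext j
        fin_cases j <;> rfl
      rw [h, h u, MultilinearMap.map_update_smul])
    (by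
      intro u v v'
      refine LinearMap.ext fun a => ?_
      change m (Fin.cons a ![u, v + v']) = m (Fin.cons a ![u, v]) + m (Fin.cons a ![u, v'])
      have h : ∀ w, (Fin.cons a ![u, w] : Fin 3 → (Fin n → ZMod p)) =
          Function.update (Fin.cons a ![u, 0] : Fin 3 → (Fin n → ZMod p)) 2 w := by
        intro w
        funext j
        fin_cases j <;> rfl
      rw [h, h v, h v', MultilinearMap.map_update_add])
    (by
      intro c u v
      refine LinearMap.ext fun a => ?_
      change m (Fin.cons a ![u, c • v]) = c • m (Fin.cons a ![u, v])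
      have h : ∀ w, (Fin.cons a ![u, w] : Fin 3 → (Fin n → ZMod p)) =
          Function.update (Fin.cons a ![u, 0] : Fin 3 → (Fin n → ZMod p)) 2 w := by
        intro w
        funext j
        fin_cases j <;> rfl
      rw [h, h v, MultilinearMap.map_update_smul])

theorem tri_apply (m : Form p 3 n) (u v a : Fin n → ZMod p) :
    tri m u v a = m (Fin.cons a ![u, v]) := rfl

theorem tri_zero_iff (m : Form p 3 n) (u v : Fin n → ZMod p) :
    tri m u v = 0 ↔ coeff m ![u, v] = 0 := by
  constructor
  · intro h
    funext i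
    have h1 := LinearMap.congr_fun h (Pi.single i 1)
    rw [tri_apply] at h1
    exact h1
  · intro h
    refine LinearMap.ext fun a => ?_
    rw [tri_apply, coeff_spec, h]
    simp

open Classical in
/-- The bias as a count of zero pairs. -/
theorem bias_three {t : ZMod p} (ht : t ≠ 0) (m : Form p 3 n) :
    ‖bias univ t m‖ = ((Finset.univ.filter fun z : (Fin n → ZMod p) × (Fin n → ZMod p) =>
      tri m z.1 z.2 = 0).card : ℝ) /
      ((Fintype.card (Fin n → ZMod p) : ℝ) * (Fintype.card (Fin n → ZMod p) : ℝ)) := by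
  rw [norm_bias_univ ht, pavg_succ]
  have h1 : ∀ u : Fin n → ZMod p, pavg (unif p n) 1 (fun x => zind (coeff m (Fin.cons u x))) =
      ∑ v, unif p n v * zind (coeff m (Fin.cons u (Fin.cons v Fin.elim0))) := by
    intro u
    rw [pavg_succ]
    simp only [pavg_zero]
  simp only [h1, unif_eq]
  have h2 : ∀ u v : Fin n → ZMod p, zind (coeff m (Fin.cons u (Fin.cons v Fin.elim0))) =
      if tri m u v = 0 then (1 : ℝ) else 0 := by
    intro u v
    unfold zind
    have h3 : (Fin.cons u (Fin.cons v Fin.elim0) : Fin 2 → (Fin n → ZMod p)) = ![u, v] := by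
      funext j
      fin_cases j <;> rfl
    rw [h3]
    by_cases h : tri m u v = 0
    · rw [if_pos h, if_pos ((tri_zero_iff m u v).mp h)]
    · rw [if_neg h, if_neg (fun h' => h ((tri_zero_iff m u v).mpr h'))]
  simp only [h2]
  rw [Finset.card_filter, Fintype.sum_prod_type]
  push_cast
  rw [Finset.sum_div]
  refine Finset.sum_congr rfl fun u _ => ?_
  rw [← Finset.mul_sum, div_eq_mul_inv, mul_inv]
  ring

theorem linearBound_three_univ : LinearBound p 3 univ := by
  classical
  have hq : (2 : ℝ) ≤ (Fintype.card (ZMod p) : ℝ) := by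
    exact_mod_cast (Fintype.one_lt_card : 1 < Fintype.card (ZMod p))
  have hlog2 : 0 < Real.log 2 := Real.log_pos (by norm_num)
  have hlogq : Real.log 2 ≤ Real.log (Fintype.card (ZMod p)) := Real.log_le_log (by norm_num) hq
  have hlog5 : 0 < Real.log 5 := Real.log_pos (by norm_num)
  have hlog43 : 0 < Real.log (4 / 3) := Real.log_pos (by norm_num)
  refine ⟨9 * ((Real.log 5 / Real.log (4 / 3) + 1) / Real.log 2), by positivity, ?_⟩
  intro n ε m hε hε1 ⟨t, ht, hbias⟩
  have hlogε : 0 ≤ Real.log (1 / ε) := Real.log_nonneg (by rw [le_div_iff₀ hε]; linarith)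
  by_cases hm : m = 0
  · refine ⟨0, by rw [hm]; exact prle_zero, ?_⟩
    push_cast
    positivity
  · rw [bias_three ht] at hbias
    set N := (Finset.univ.filter fun z : (Fin n → ZMod p) × (Fin n → ZMod p) =>
      tri m z.1 z.2 = 0).card with hN
    set M := Fintype.card (Fin n → ZMod p) with hM
    have hMpos : (0 : ℝ) < M := by
      have : 0 < M := Fintype.card_pos
      exact_mod_cast this
    have hTne : tri m ≠ 0 := by
      intro h
      apply hm
      refine MultilinearMap.ext fun x => ?_
      have hx : x = Fin.cons (x 0) ![x 1, x 2] := by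
        funext j
        fin_cases j <;> rfl
      rw [hx, ← tri_apply, h]
      rfl
    have h34 := zero_pairs_le (tri m) hTne (Finset.univ.filter fun z :
      (Fin n → ZMod p) × (Fin n → ZMod p) => tri m z.1 z.2 = 0) (fun z => by simp)
    rw [← hN, ← hM] at h34
    have hNpos : 0 < N := Finset.card_pos.mpr ⟨(0, 0), by simp⟩
    have hNpos' : (0 : ℝ) < N := by exact_mod_cast hNpos
    set B : ℝ := (N : ℝ) / ((M : ℝ) * (M : ℝ)) with hB
    have hBpos : 0 < B := by positivity
    have hB34 : B ≤ 3 / 4 := by
      rw [hB, div_le_iff₀ (by positivity)]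
      have : (4 : ℝ) * N ≤ 3 * (M * M) := by exact_mod_cast h34
      linarith
    have hlogB : Real.log (4 / 3) ≤ Real.log (1 / B) := by
      apply Real.log_le_log (by norm_num)
      rw [le_div_iff₀ hBpos]
      linarith
    have hlogBε : Real.log (1 / B) ≤ Real.log (1 / ε) := by
      apply Real.log_le_log (by positivity)
      exact one_div_le_one_div_of_le hε hbias
    set R : ℕ := ⌊Real.log (5 / B) / Real.log (Fintype.card (ZMod p))⌋₊ with hR
    have h5B : Real.log (5 / B) = Real.log 5 + Real.log (1 / B) := by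
      rw [← Real.log_mul (by norm_num) (by positivity)]
      congr 1
      ring
    have hquot : 0 ≤ Real.log (5 / B) / Real.log (Fintype.card (ZMod p)) := by
      rw [h5B]
      have : 0 < Real.log (1 / B) := lt_of_lt_of_le hlog43 hlogB
      have := lt_of_lt_of_le hlog2 hlogq
      positivity
    have hR1 : (R : ℝ) ≤ Real.log (5 / B) / Real.log (Fintype.card (ZMod p)) :=
      Nat.floor_le hquot
    have hR2 : Real.log (5 / B) / Real.log (Fintype.card (ZMod p)) < (R : ℝ) + 1 :=
      Nat.lt_floor_add_one _
    have hpow : 5 / B ≤ (Fintype.card (ZMod p) : ℝ) ^ (R + 1) := by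
      rw [← Real.log_le_log_iff (by positivity) (by positivity), Real.log_pow]
      rw [div_lt_iff₀ (lt_of_lt_of_le hlog2 hlogq)] at hR2
      push_cast
      linarith
    have hcount : 5 * (M * M) ≤ N * Fintype.card (ZMod p) ^ (R + 1) := by
      have h7 : (5 : ℝ) * (M * M) ≤ N * (Fintype.card (ZMod p) : ℝ) ^ (R + 1) := by
        have h8 : 5 / B = 5 * (M * M) / N := by
          rw [hB]; field_simp
        rw [h8, div_le_iff₀ hNpos'] at hpow
        linarith
      exact_mod_cast h7
    obtain ⟨U', V', W', hvan, hdim⟩ := trilinear_vanish (tri m) R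
      (Finset.univ.filter fun z : (Fin n → ZMod p) × (Fin n → ZMod p) => tri m z.1 z.2 = 0)
      (fun z => by simp) hcount
    obtain ⟨P, hP0, hP1, hP2⟩ : ∃ P : Fin 3 → Submodule (ZMod p) (Fin n → ZMod p),
        P 0 = W' ∧ P 1 = U' ∧ P 2 = V' := ⟨![W', U', V'], rfl, rfl, rfl⟩
    have hpr := prle_of_vanish (d := 3) (by norm_num) P univ m (by
      intro x hx
      have hx' : x = Fin.cons (x 0) ![x 1, x 2] := by
        funext j
        fin_cases j <;> rfl
      have h0 := hx 0 (Finset.mem_univ _)
      have h1 := hx 1 (Finset.mem_univ _)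
      have h2 := hx 2 (Finset.mem_univ _)
      rw [hP0] at h0
      rw [hP1] at h1
      rw [hP2] at h2
      rw [hx', ← tri_apply]
      exact hvan _ h1 _ h2 _ h0)
    refine ⟨_, hpr, ?_⟩
    rw [Fin.sum_univ_three, hP0, hP1, hP2]
    have hdim' : finrank (ZMod p) (Fin n → ZMod p) - finrank (ZMod p) W' +
        (finrank (ZMod p) (Fin n → ZMod p) - finrank (ZMod p) U') +
        (finrank (ZMod p) (Fin n → ZMod p) - finrank (ZMod p) V') ≤ 9 * R := by
      have f1 := Submodule.finrank_le W'
      have f2 := Submodule.finrank_le U'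
      have f3 := Submodule.finrank_le V'
      omega
    calc _ ≤ ((9 * R : ℕ) : ℝ) := by exact_mod_cast hdim'
      _ = 9 * (R : ℝ) := by push_cast; ring
      _ ≤ 9 * (Real.log (5 / B) / Real.log (Fintype.card (ZMod p))) := by linarith
      _ ≤ 9 * (Real.log (5 / B) / Real.log 2) := by
          apply mul_le_mul_of_nonneg_left _ (by norm_num)
          apply div_le_div_of_nonneg_left _ hlog2 hlogq
          rw [h5B]
          linarith
      _ ≤ 9 * ((Real.log 5 / Real.log (4 / 3) + 1) / Real.log 2) * Real.log (1 / B) := by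
          rw [mul_assoc]
          apply mul_le_mul_of_nonneg_left _ (by norm_num)
          rw [div_mul_eq_mul_div]
          apply div_le_div_of_nonneg_right _ hlog2.le
          rw [h5B, add_mul, one_mul]
          have : Real.log 5 ≤ Real.log 5 / Real.log (4 / 3) * Real.log (1 / B) := by
            rw [div_mul_eq_mul_div, le_div_iff₀ hlog43]
            exact mul_le_mul_of_nonneg_left hlogB hlog5.le
          linarith
      _ ≤ _ := mul_le_mul_of_nonneg_left hlogBε (by positivity)

end Pool.Agent.TH410
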